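import Pool.Agent.Lib.MP_bc213e_ag.OW.A.Loc

/-! First properties of an embedding that trivialises `L`. -/

namespace Pool.Agent.Lib.MP_bc213e_ag.OW

open Pool.Agent.Lib.MP_bc213e_ag.Hyp Pool.Agent.Lib.MP_bc213e_ag.KBB WithZero Filter

variable {K κ : Type} [Field K] [Algebra ℂ K] {N : ℕ} {x : Fin N → Kˣ} {L : Prm x →₀ ℤ}

theorem IsCanonical.le {ι : Type} {x : ι → Kˣ} {n : ℕ} {D : Fin n → Derivation ℂ K K}
    {KX : Prm x →₀ ℤ} (h : IsCanonical D KX) (w : Prm x) {u : Fin n → K}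
    (hu : ∀ b, w.1 (u b) ≤ 1) : w.1 (jac D u) ≤ exp (KX w) := by
  by_cases h0 : jac D u = 0
  · rw [h0, map_zero]; exact zero_le
  · have := (le_ord_iff w.1 h0 _).1 ((h w).2 ⟨u, hu, h0, rfl⟩)
    rwa [neg_neg] at this

namespace Emb

variable (E : Emb L κ)

theorem normal (h : ∀ i, IsFractionRing (chart x i) K ∧ IsIntegrallyClosed (chart x i)) (a : κ) :
    IsFractionRing (chart E.x' a) K ∧ IsIntegrallyClosed (chart E.x' a) := by
  have := (h (E.j a)).1
  have := (h (E.j a)).2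
  exact ⟨(E.loc a).frac, (E.loc a).normal⟩

/-- Sketch: the chart `k₀` lies in the field generated by the `x' a`, since `x' k₀ = 1`. -/
theorem gen (h : ∀ i, IsFractionRing (chart x i) K) :
    IntermediateField.adjoin ℂ (Set.range fun a => (E.x' a : K)) = ⊤ := by
  have := h (E.j E.k₀)
  have := (E.loc E.k₀).frac
  have le : chart E.x' E.k₀ ≤
      (IntermediateField.adjoin ℂ (Set.range fun a => (E.x' a : K))).toSubalgebra := by
    refine Algebra.adjoin_le ?_
    rintro _ ⟨a, rfl⟩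
    simp only [E.one, Units.val_one, div_one]
    exact IntermediateField.subset_adjoin ℂ _ ⟨a, rfl⟩
  refine eq_top_iff.2 fun z _ => ?_
  obtain ⟨n, d, -, rfl⟩ := IsFractionRing.div_surjective (chart E.x' E.k₀) z
  exact div_mem (le n.2) (le d.2)

theorem locEq (a : κ) {O : Subalgebra ℂ K} (h : Loc (chart E.x' a) O) : LocEq L O (E.g' a)⁻¹ := by
  intro w hw
  rw [ord_eq_iff w.1 (Units.ne_zero _), Units.val_inv_eq_inv_val, map_inv₀,
    E.eqn a w (h.primeDiv hw), exp_neg]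

/-- Sketch: `hartogs`; `w (jac ^ m / g') ≤ exp (m * KX w - L w)` and `m * KX w ≤ L w`. -/
theorem effective [Fintype κ]
    (h : ∀ i, IsFractionRing (chart x i) K ∧ IsIntegrallyClosed (chart x i)) {n m : ℕ}
    {D : Fin n → Derivation ℂ K K} {KX : Prm x →₀ ℤ} (hK : IsCanonical D KX) {Δ : Prm x →₀ ℚ}
    (hΔ : 0 ≤ Δ) (hL : ∀ w, (L w : ℚ) = m * (KX w + Δ w)) (a : κ) (u : Fin n → K)
    (hu : ∀ b, u b ∈ chart E.x' a) : jac D u ^ m / E.g' a ∈ chart E.x' a := by
  have := (E.normal h a).1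
  have := (E.normal h a).2
  have := chart_noeth E.x' a
  refine hartogs fun w hw => ?_
  let v : Prm x := ⟨w, E.j a, (E.loc a).primeDiv hw⟩
  have e1 : w (E.g' a : K) = exp (L v) := E.eqn a v hw
  have e2 : w (jac D u) ≤ exp (KX v) := hK.le v fun b => hw.2.1 _ (hu b)
  have e3 : (m : ℤ) * KX v ≤ L v := by
    have d : (0 : ℚ) ≤ Δ v := hΔ v
    have : ((m : ℤ) * KX v : ℚ) ≤ L v := by
      rw [hL v]
      push_cast
      nlinarith [mul_nonneg (Nat.cast_nonneg (α := ℚ) m) d]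
    exact_mod_cast this
  rw [map_div₀, map_pow, e1, div_le_one₀ (zero_lt_iff.2 exp_ne_zero)]
  refine (pow_le_pow_left₀ zero_le e2 m).trans ?_
  rw [← exp_nsmul, exp_le_exp, nsmul_eq_mul]
  exact e3

/-- Sketch: multiplication by `u ^ a` is a linear equivalence (`LinearEquiv.finrank_map_eq` or
`LinearEquiv.ofSubmodules`). -/
theorem finrank_eq (t a : ℕ) :
    Module.finrank ℂ (SecS E.x' E.g' t a) = Module.finrank ℂ (Tw (t • L) (E.k * a)) := by
  have hu : (E.u : K) ^ a ≠ 0 := pow_ne_zero _ E.u.ne_zero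
  let e : K ≃ₗ[ℂ] K := LinearEquiv.ofBijective (LinearMap.mulRight ℂ ((E.u : K) ^ a))
    ⟨mul_left_injective₀ hu, fun z => ⟨z / (E.u : K) ^ a, div_mul_cancel₀ z hu⟩⟩
  suffices k : (SecS E.x' E.g' t a).map (e : K →ₗ[ℂ] K) = Tw (t • L) (E.k * a) by
    rw [← k, e.finrank_map_eq]
  ext z
  constructor
  · rintro ⟨s, hs, rfl⟩
    exact (E.sec t a s).1 hs
  · intro hz
    refine ⟨z / (E.u : K) ^ a, (E.sec t a _).2 ?_, div_mul_cancel₀ z hu⟩
    rwa [div_mul_cancel₀ z hu]

end Emb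

/-- `Tw L a` is the space of sections of a divisor `L + a H`. Sketch: `H w = -ord w (x i)` for any
chart `i` that contains `w` (`primeDiv_chart`); finite support by `finite_supp`. -/
theorem exists_hyp (h : ∀ i, IsFractionRing (chart x i) K) : ∃ H : Prm x →₀ ℤ,
    ∀ (L : Prm x →₀ ℤ) (a : ℕ), Tw L a = Sect (L + a • H) ∅ := by
  have key : ∀ (w : Prm x) (i : Fin N), PrimeDiv (chart x i) w.1 →
      w.1 (x i : K) = exp (log (w.1 (x w.2.choose : K))) := fun w i hi => by
    have := (primeDiv_chart w.2.choose_spec i).1 hi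
    rw [map_div₀, div_eq_one_iff_eq (Basic_pos w.1 _).ne'] at this
    rw [this, exp_log (Basic_pos w.1 _).ne']
  have fin : (Function.support fun w : Prm x => log (w.1 (x w.2.choose : K))).Finite := by
    refine (Set.finite_iUnion fun i : Fin N => ?_ : (⋃ i : Fin N, Subtype.val ⁻¹'
      {w : ZVal K | PrimeDiv (chart x i) w ∧ w (x i : K) ≠ 1}).Finite).subset fun w hw => ?_
    · have := h i
      have := chart_noeth x i
      exact (finite_supp (x i).ne_zero).preimage Subtype.val_injective.injOn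
    · exact Set.mem_iUnion.2 ⟨_, w.2.choose_spec, fun e => hw (by simp only [e, log_one])⟩
  refine ⟨Finsupp.ofSupportFinite _ fin, fun L a => ?_⟩
  have iff : ∀ (s : K) (w : Prm x) (i : Fin N), PrimeDiv (chart x i) w.1 →
      (w.1 (s / (x i : K) ^ a) ≤ exp (L w) ↔
        w.1 s ≤ exp ((L + a • Finsupp.ofSupportFinite _ fin) w)) := fun s w i hi => by
    rw [map_div₀, map_pow, key w i hi, ← exp_nsmul, div_le_iff₀ (zero_lt_iff.2 exp_ne_zero),
      ← exp_add, Finsupp.add_apply, Finsupp.smul_apply, Finsupp.ofSupportFinite_coe]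
  ext s
  constructor
  · intro hs w _
    exact (iff s w _ w.2.choose_spec).1 (hs _ w fun i hi => Finset.mem_singleton.1 hi ▸ w.2.choose_spec)
  · intro hs i w hw
    exact (iff s w i (hw i (Finset.mem_singleton_self i))).2 (hs w fun _ hi => absurd hi (by simp))

theorem qeff_of_finrank {ι : Type} {x : ι → Kˣ} {L : Prm x →₀ ℤ} {t : ℕ}
    (h : 0 < Module.finrank ℂ (Sect (t • L) ∅)) :
    ∃ f : Kˣ, ∀ w : Prm x, 0 ≤ ord w.1 (f : K) + t * L w := by
  have := Module.nontrivial_of_finrank_pos h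
  obtain ⟨s, hs⟩ := exists_ne (0 : Sect (t • L) ∅)
  have h0 : (s : K) ≠ 0 := fun e => hs (Subtype.ext e)
  refine ⟨Units.mk0 s h0, fun w => ?_⟩
  have a := s.2 w fun _ hi => absurd hi (by simp)
  rw [Finsupp.smul_apply, nsmul_eq_mul, ← neg_neg (t * L w), ← le_ord_iff w.1 h0] at a
  rw [Units.val_mk0]
  linarith

end Pool.Agent.Lib.MP_bc213e_ag.OW
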