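import Pool.Agent.Lib.MP_bc213e_ag.OW.A.Loc

/-! A Cartier divisor is principal on principal open sets that cover a chart. -/

namespace Pool.Agent.Lib.MP_bc213e_ag.OW

open Pool.Agent.Lib.MP_bc213e_ag.Hyp Pool.Agent.Lib.MP_bc213e_ag.KBB WithZero Filter

variable {K ι : Type} [Field K] [Algebra ℂ K] [Fintype ι] {x : ι → Kˣ}

/-- Sketch: let `f` be an equation at `locAt _ p` (`isPoint_locAt`). The set of prime divisors `w` of
the chart with `ord w f ≠ L w` is finite (`finite_supp`, `chart_noeth`, finite support of `L`). For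
such a `w` there is `r` in the chart with `w r < 1`, `r ∉ p` (`primeDiv_locAt`). Take the product
of these `r`. -/
theorem exists_eqn (i : ι) [IsFractionRing (chart x i) K] {L : Prm x →₀ ℤ} (hL : IsCartier L)
    (p : Ideal (chart x i)) [p.IsPrime] : ∃ (s : chart x i) (f : Kˣ), s ∉ p ∧
      ∀ w : Prm x, PrimeDiv (chart x i) w.1 → w.1 (s : K) = 1 → ord w.1 (f : K) = L w := by
  classical
  have := chart_noeth x i
  obtain ⟨f, hf⟩ := hL _ (isPoint_locAt x i p)
  have hT : {w : Prm x | PrimeDiv (chart x i) w.1 ∧ ord w.1 (f : K) ≠ L w}.Finite := by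
    refine (((finite_supp (A := chart x i) f.ne_zero).preimage
      Subtype.val_injective.injOn).union L.support.finite_toSet).subset fun w hw => ?_
    by_contra hn
    rw [Set.mem_union, not_or] at hn
    have h1 : w.1 (f : K) = 1 := by_contra fun e => hn.1 ⟨hw.1, e⟩
    exact hw.2 (by rw [Finsupp.notMem_support_iff.1 hn.2, ord, h1, log_one, neg_zero])
  have h1 : ∀ w : Prm x, ∃ r : chart x i, r ∉ p ∧
      (PrimeDiv (chart x i) w.1 ∧ ord w.1 (f : K) ≠ L w → w.1 (r : K) < 1) := fun w => by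
    by_contra hn
    push Not at hn
    have h2 := (hn 1 fun e => Ideal.IsPrime.ne_top ‹_› ((Ideal.eq_top_iff_one p).2 e)).1
    exact h2.2 (hf w ((primeDiv_locAt p w.1).2
      ⟨h2.1, fun r hr => by_contra fun e => (hn r e).2.not_gt hr⟩))
  choose r hr hr' using h1
  refine ⟨∏ w ∈ hT.toFinset, r w, f, fun e => ?_, fun w hw h1 => by_contra fun e => ?_⟩
  · obtain ⟨w, -, h2⟩ := Ideal.IsPrime.prod_mem_iff.1 e
    exact hr w h2
  · obtain ⟨c, hc⟩ := Finset.dvd_prod_of_mem r (hT.mem_toFinset.2 (⟨hw, e⟩ : _ ∧ _))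
    rw [hc, Subalgebra.coe_mul, map_mul] at h1
    exact ((mul_le_of_le_one_right' (hw.2.1 _ c.2)).trans_lt (hr' w ⟨hw, e⟩)).ne h1

/-- Sketch: the ideal spanned by all `s` that have an equation `f` lies in no maximal ideal, so
`1` is a finite combination (`Submodule.mem_span_finite_of_mem_span` or `Finsupp` form); drop the
terms with `s = 0`. -/
theorem exists_eqns (i : ι) [IsFractionRing (chart x i) K] {L : Prm x →₀ ℤ} (hL : IsCartier L) :
    ∃ (M : ℕ) (s f : Fin M → Kˣ) (r : Fin M → K), (∀ b, (s b : K) ∈ chart x i) ∧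
      (∀ b, r b ∈ chart x i) ∧ ∑ b, r b * s b = 1 ∧ ∀ b (w : Prm x),
        PrimeDiv (chart x i) w.1 → w.1 (s b : K) = 1 → ord w.1 (f b : K) = L w := by
  have h1 : Ideal.span {s : chart x i | (s : K) ≠ 0 ∧ ∃ f : Kˣ, ∀ w : Prm x,
      PrimeDiv (chart x i) w.1 → w.1 (s : K) = 1 → ord w.1 (f : K) = L w} = ⊤ := by
    by_contra hn
    obtain ⟨m, hm, hle⟩ := Ideal.exists_le_maximal _ hn
    obtain ⟨s, f, hs, hf⟩ := exists_eqn i hL m
    exact hs (hle (Ideal.subset_span ⟨(inv_mem_locAt hs).1, f, hf⟩))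
  obtain ⟨M, r, s, e⟩ := Submodule.mem_span_set'.1 ((Ideal.eq_top_iff_one _).1 h1)
  choose f hf using fun b => (s b).2.2
  refine ⟨M, fun b => Units.mk0 _ (s b).2.1, f, fun b => r b, fun b => (s b).1.2, fun b => (r b).2,
    ?_, hf⟩
  simpa using congrArg (chart x i).val e

end Pool.Agent.Lib.MP_bc213e_ag.OW
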