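import Pool.Agent.Lib.MP_bc213e_ag.OW.A.Eqn

/-! Forms of one degree whose principal open sets cover `X` and trivialise `L`. -/

namespace Pool.Agent.Lib.MP_bc213e_ag.OW

open Pool.Agent.Lib.MP_bc213e_ag.Hyp Pool.Agent.Lib.MP_bc213e_ag.KBB WithZero Filter

variable {K ι : Type} [Field K] [Algebra ℂ K] [Fintype ι] {x : ι → Kˣ}

omit [Algebra ℂ K] in
theorem forms_eq_one {w : ZVal K} {a b : K} (ha : w a ≤ 1) (hb : w b ≤ 1) (h : w (a * b) = 1) :
    w a = 1 ∧ w b = 1 := by
  rw [map_mul] at h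
  refine ⟨le_antisymm ha ?_, le_antisymm hb ?_⟩
  · calc (1 : WithZero (Multiplicative ℤ)) = w a * w b := h.symm
      _ ≤ w a * 1 := mul_le_mul' le_rfl hb
      _ = w a := mul_one _
  · calc (1 : WithZero (Multiplicative ℤ)) = w a * w b := h.symm
      _ ≤ 1 * w b := mul_le_mul' ha le_rfl
      _ = w b := one_mul _

theorem forms_pow {B : Type} [Fintype B] (c : B → ι) (s : B → K) (hs : ∀ b, s b ∈ chart x (c b)) :
    ∃ k : ℕ, ∀ b l, s b * ((x (c b) : K) / x l) ^ k ∈ chart x l := by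
  choose e he using fun p : B × ι => chart_trans x (c p.1) p.2 (hs p.1)
  refine ⟨Finset.univ.sup e, fun b l => ?_⟩
  obtain ⟨d, hd⟩ := Nat.exists_eq_add_of_le (Finset.le_sup (f := e) (Finset.mem_univ (b, l)))
  rw [hd, pow_add, ← mul_assoc]
  exact mul_mem (he (b, l)) (pow_mem (Basic_mem x l (c b)) d)

/-- Sketch: `B = Σ i, Fin (M i)` from `exists_eqns`. By `chart_trans` and a supremum over finite
sets there is `k₀` with `s * (x i / x l) ^ k₀ ∈ chart x l` for all `l`. Put
`F ⟨i, b⟩ = s * x i ^ (k₀ + 1)`, `k = k₀ + 1`. If `w (F / x l ^ k) = 1`, both factors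
`s * (x i / x l) ^ k₀` and `x i / x l` have value one, so `w` is a prime divisor of the chart `i`
(`primeDiv_chart`) and `w s = 1`. In the sum for the chart `l` take `r = 0` for `i ≠ l`. -/
theorem exists_forms (frac : ∀ i, IsFractionRing (chart x i) K) {L : Prm x →₀ ℤ}
    (hL : IsCartier L) : ∃ (B : Type) (_ : Fintype B) (F f : B → Kˣ) (k : ℕ),
      (∀ b l, (F b : K) / (x l : K) ^ k ∈ chart x l) ∧
      (∀ l, ∃ r : B → K, (∀ b, r b ∈ chart x l) ∧ ∑ b, r b * ((F b : K) / (x l : K) ^ k) = 1) ∧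
      ∀ b l (w : Prm x), PrimeDiv (chart x l) w.1 → w.1 ((F b : K) / (x l : K) ^ k) = 1 →
        ord w.1 (f b : K) = L w := by
  classical
  choose M s f r hs hr hsum heq using fun i => @exists_eqns K ι _ _ _ x i (frac i) L hL
  obtain ⟨k, hk⟩ := forms_pow (x := x) (B := Σ i, Fin (M i)) (fun b => b.1)
    (fun b => (s b.1 b.2 : K)) fun b => hs b.1 b.2
  have key : ∀ (b : Σ i, Fin (M i)) (l : ι),
      ((s b.1 b.2 * x b.1 ^ (k + 1) : Kˣ) : K) / (x l : K) ^ (k + 1) =
        (s b.1 b.2 : K) * ((x b.1 : K) / x l) ^ k * ((x b.1 : K) / x l) := fun b l => by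
    rw [Units.val_mul, Units.val_pow_eq_pow_val, mul_assoc, ← pow_succ, div_pow, mul_div_assoc]
  refine ⟨Σ i, Fin (M i), inferInstance, fun b => s b.1 b.2 * x b.1 ^ (k + 1),
    fun b => f b.1 b.2, k + 1, fun b l => ?_, fun l => ?_, fun b l w hw h1 => ?_⟩
  · rw [key]
    exact mul_mem (hk b l) (Basic_mem x l b.1)
  · refine ⟨fun b => if b.1 = l then r b.1 b.2 else 0, fun b => ?_, ?_⟩
    · dsimp only
      split_ifs with h
      · exact h ▸ hr b.1 b.2
      · exact zero_mem _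
    · rw [Fintype.sum_sigma, Finset.sum_eq_single l]
      · rw [← hsum l]
        refine Finset.sum_congr rfl fun b _ => ?_
        rw [key]
        simp
      · intro i _ hi
        refine Finset.sum_eq_zero fun b _ => ?_
        simp [hi]
      · intro h
        exact absurd (Finset.mem_univ l) h
  · rw [key] at h1
    obtain ⟨h2, h3⟩ := forms_eq_one (hw.2.1 _ (hk b l)) (hw.2.1 _ (Basic_mem x l b.1)) h1
    refine heq b.1 b.2 w ((primeDiv_chart hw b.1).2 h3) ?_
    rwa [map_mul, map_pow, h3, one_pow, mul_one] at h2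

end Pool.Agent.Lib.MP_bc213e_ag.OW
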