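import Pool.Agent.Lib.MP_bc213e_ag.OW.A.Loc

/-! Local coordinates can be chosen in the coordinate ring. -/

namespace Pool.Agent.Lib.MP_bc213e_ag.OW

open Pool.Agent.Lib.MP_bc213e_ag.Hyp Pool.Agent.Lib.MP_bc213e_ag.KBB WithZero Filter

variable {K : Type} [Field K] [Algebra ℂ K] {A : Subalgebra ℂ K} {n : ℕ}

theorem klta_span {R M : Type} [CommRing R] [Algebra ℂ R] [AddCommGroup M] [Module R M]
    [Module ℂ M] (D : Derivation ℂ R M) (ζ lam : Fin n → R) (b b' : R) (hb : b' * b = 1)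
    (h : Submodule.span R (Set.range fun l => D (ζ l)) = ⊤)
    (hl : ∑ l, lam l • D (ζ l) = b' • D b) (N : ℕ)
    (hu : IsUnit (1 + ((N + 1 : ℕ) : R) * ∑ l, lam l * ζ l)) :
    Submodule.span R (Set.range fun l => D (b ^ (N + 1) * ζ l)) = ⊤ := by
  set S := Submodule.span R (Set.range fun l => D (b ^ (N + 1) * ζ l)) with hS
  have hp : ∀ k : ℕ, b' ^ k * b ^ k = 1 := fun k => by rw [← mul_pow, hb, one_pow]
  have hη : ∀ l, D (ζ l) + (((N + 1 : ℕ) : R) * ζ l) • (b' • D b) ∈ S := by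
    intro l
    have h1 : D (b ^ (N + 1) * ζ l) ∈ S := Submodule.subset_span ⟨l, rfl⟩
    have h2 := S.smul_mem (b' ^ (N + 1)) h1
    convert h2 using 1
    rw [Derivation.leibniz, Derivation.leibniz_pow, Nat.add_sub_cancel,
      ← Nat.cast_smul_eq_nsmul R]
    simp only [smul_add, smul_smul, hp, one_smul]
    congr 2
    linear_combination (-(((N + 1 : ℕ) : R) * ζ l * b')) * hp N
  have hβ : b' • D b ∈ S := by
    have h1 : ∑ l, lam l • (D (ζ l) + (((N + 1 : ℕ) : R) * ζ l) • (b' • D b)) ∈ S :=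
      S.sum_mem fun l _ => S.smul_mem _ (hη l)
    have h2 : ∑ l, lam l • (D (ζ l) + (((N + 1 : ℕ) : R) * ζ l) • (b' • D b)) =
        (1 + ((N + 1 : ℕ) : R) * ∑ l, lam l * ζ l) • (b' • D b) := by
      generalize b' • D b = β at hl ⊢
      simp only [smul_add, Finset.sum_add_distrib, hl, add_smul, one_smul, Finset.mul_sum,
        Finset.sum_smul, smul_smul]
      congr 1
      refine Finset.sum_congr rfl fun l _ => ?_
      congr 1
      ring
    rw [h2] at h1
    obtain ⟨u, hu⟩ := hu.exists_left_inv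
    have h3 := S.smul_mem u h1
    rwa [smul_smul, hu, one_smul] at h3
  rw [eq_top_iff, ← h, Submodule.span_le]
  rintro _ ⟨l, rfl⟩
  have h1 := S.sub_mem (hη l) (S.smul_mem (((N + 1 : ℕ) : R) * ζ l) hβ)
  rwa [add_sub_cancel_right] at h1

theorem klta_unit (p : Ideal A) [hp : p.IsPrime] (z : locAt A p) (s c : A)
    (hc : c ∉ p) (h : (s : K) * z = c) : IsUnit z := by
  obtain ⟨h0, h1⟩ := inv_mem_locAt hc
  refine IsUnit.of_mul_eq_one ⟨(s : K) * (c : K)⁻¹,
    (locAt A p).mul_mem ((loc_locAt p).1 s.2) h1⟩ (Subtype.ext ?_)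
  change (z : K) * ((s : K) * (c : K)⁻¹) = 1
  rw [← mul_assoc, mul_comm (z : K), h, mul_inv_cancel₀ h0]

theorem klta_or (p : Ideal A) [hp : p.IsPrime] (μ : locAt A p) :
    ∃ N : ℕ, IsUnit (1 + ((N + 1 : ℕ) : locAt A p) * μ) := by
  obtain ⟨s, hs, hc⟩ := mem_locAt.1 μ.2
  set c : A := ⟨(s : K) * μ, hc⟩ with hcd
  have hcK : (c : K) = s * μ := rfl
  by_cases h1 : s + c ∈ p
  · by_cases h2 : s + (c + c) ∈ p
    · exfalso
      apply hs
      have h3 := p.sub_mem (p.add_mem h1 h1) h2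
      convert h3 using 1
      ring
    · refine ⟨1, klta_unit p _ s _ h2 ?_⟩
      simp only [Subalgebra.coe_add, Subalgebra.coe_mul, Subalgebra.coe_one, hcK,
        SubringClass.coe_natCast]
      push_cast
      ring
  · refine ⟨0, klta_unit p _ s _ h1 ?_⟩
    simp only [Subalgebra.coe_add, Subalgebra.coe_mul, Subalgebra.coe_one, hcK,
      SubringClass.coe_natCast]
    push_cast
    ring

/-- Sketch: let `b ∉ p` be a common denominator, `β = b⁻¹ • d b = ∑ l, lam l • d (ζ l)`,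
`μ = ∑ l, lam l * ζ l`. For `N ≥ 1`, `d (b ^ N * ζ l) = b ^ N • η l` with
`η l = d (ζ l) + (N * ζ l) • β`, and `∑ l, lam l • η l = (1 + N * μ) • β`. The ring
`locAt A p` is local (or directly: write `μ = c / s`; `s + c` and `s + 2 * c` are not both in `p`),
so `1 + μ` or `1 + 2 * μ` is a unit. -/
theorem klt_den (p : Ideal A) [p.IsPrime] (ζ : Fin n → locAt A p)
    (h : Submodule.span (locAt A p)
      (Set.range fun l => KaehlerDifferential.D ℂ (locAt A p) (ζ l)) = ⊤) :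
    ∃ (ζ' : Fin n → A) (b : A), b ∉ p ∧ (∀ l, (ζ' l : K) = b * ζ l) ∧
      Submodule.span (locAt A p) (Set.range fun l => KaehlerDifferential.D ℂ (locAt A p)
        (Subalgebra.inclusion (loc_locAt p).1 (ζ' l))) = ⊤ := by
  classical
  choose d hd hm using fun l => mem_locAt.1 (ζ l).2
  have hp : p.IsPrime := inferInstance
  have hb : (∏ l, d l) ∉ p := by
    intro hh
    obtain ⟨l, -, hl⟩ := Ideal.IsPrime.prod_mem_iff.1 hh
    exact hd l hl
  have hbm : ∀ l, ((∏ l, d l : A) : K) * ζ l ∈ A := by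
    intro l
    rw [← Finset.prod_erase_mul Finset.univ d (Finset.mem_univ l), Subalgebra.coe_mul, mul_assoc]
    exact A.mul_mem (Subtype.property _) (hm l)
  generalize (∏ l, d l) = b at hb hbm
  obtain ⟨h0, h1⟩ := inv_mem_locAt hb
  set b1 : locAt A p := Subalgebra.inclusion (loc_locAt p).1 b with hb1
  set b2 : locAt A p := ⟨(b : K)⁻¹, h1⟩ with hb2
  have hbb : b2 * b1 = 1 := Subtype.ext (inv_mul_cancel₀ h0)
  have hmem : b2 • KaehlerDifferential.D ℂ (locAt A p) b1 ∈ Submodule.span (locAt A p)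
      (Set.range fun l => KaehlerDifferential.D ℂ (locAt A p) (ζ l)) := by
    rw [h]
    exact Submodule.mem_top
  obtain ⟨lam, hl⟩ := (Submodule.mem_span_range_iff_exists_fun _).1 hmem
  obtain ⟨N, hN⟩ := klta_or p (∑ l, lam l * ζ l)
  have key := klta_span (KaehlerDifferential.D ℂ (locAt A p)) ζ lam b1 b2 hbb h hl N hN
  refine ⟨fun l => b ^ N * ⟨_, hbm l⟩, b ^ (N + 1), fun hh => hb (hp.mem_of_pow_mem _ hh),
    fun l => ?_, ?_⟩
  · change (b : K) ^ N * ((b : K) * ζ l) = (b : K) ^ (N + 1) * ζ l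
    ring
  · rw [← key]
    congr 2
    funext l
    congr 1
    refine Subtype.ext ?_
    change (b : K) ^ N * ((b : K) * ζ l) = (b : K) ^ (N + 1) * ζ l
    ring

end Pool.Agent.Lib.MP_bc213e_ag.OW
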