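import Pool.Agent.Lib.MP_bc213e_ag.OW.A.Loc

/-! Generators of the local module of differentials. -/

namespace Pool.Agent.Lib.MP_bc213e_ag.OW

open Pool.Agent.Lib.MP_bc213e_ag.Hyp Pool.Agent.Lib.MP_bc213e_ag.KBB WithZero Filter

variable {K : Type} [Field K] [Algebra ℂ K] {A : Subalgebra ℂ K} {n : ℕ}

theorem KltB_one (p : Ideal A) [p.IsPrime] (ζ : Fin n → A)
    (h : Submodule.span (locAt A p) (Set.range fun l => KaehlerDifferential.D ℂ (locAt A p)
      (Subalgebra.inclusion (loc_locAt p).1 (ζ l))) = ⊤) (ω : Ω[A⁄ℂ]) : ∃ s : p.primeCompl,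
      s.1 • ω ∈ Submodule.span A (Set.range fun l => KaehlerDifferential.D ℂ A (ζ l)) := by
  let := (Subalgebra.inclusion (loc_locAt p).1).toRingHom.toAlgebra
  have : IsScalarTower ℂ A (locAt A p) := .of_algebraMap_eq fun _ => rfl
  have : IsLocalization p.primeCompl (locAt A p) := by
    refine (isLocalization_iff _ _).2 ⟨fun y => ?_, fun z => ?_, fun {a b} e => ?_⟩
    · exact IsUnit.of_mul_eq_one ⟨_, (inv_mem_locAt y.2).2⟩
        (Subtype.ext (mul_inv_cancel₀ (inv_mem_locAt y.2).1))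
    · obtain ⟨b, hb, h1⟩ := z.2
      exact ⟨(⟨_, h1⟩, ⟨b, hb⟩), Subtype.ext (mul_comm _ _)⟩
    · exact ⟨1, by rw [Subalgebra.inclusion_injective (loc_locAt p).1 e]⟩
  obtain ⟨c, hc⟩ := (Submodule.mem_span_range_iff_exists_fun _).1
    (h.ge (Submodule.mem_top (x := KaehlerDifferential.map ℂ ℂ A (locAt A p) ω)))
  obtain ⟨b, hb⟩ := IsLocalization.exist_integer_multiples_of_finite p.primeCompl c
  choose a ha using hb
  have h1 : KaehlerDifferential.map ℂ ℂ A (locAt A p) (b.1 • ω) = KaehlerDifferential.map ℂ ℂ A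
      (locAt A p) (∑ l, a l • KaehlerDifferential.D ℂ A (ζ l)) := by
    rw [map_smul, ← hc, map_sum, Finset.smul_sum]
    refine Finset.sum_congr rfl fun l _ => ?_
    rw [map_smul, KaehlerDifferential.map_D, ← smul_assoc, ← ha, algebraMap_smul]
    rfl
  obtain ⟨t, ht⟩ := IsLocalizedModule.exists_of_eq (S := p.primeCompl) h1
  refine ⟨t * b, ?_⟩
  rw [Submonoid.coe_mul, mul_smul, ← Submonoid.smul_def, ht]
  exact Submodule.smul_mem _ t.1 (Submodule.sum_mem _ fun l _ =>
    Submodule.smul_mem _ _ (Submodule.subset_span ⟨l, rfl⟩))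

/-- Sketch: make `locAt A p` an `A`-algebra by `Subalgebra.inclusion`, show
`IsLocalization p.primeCompl (locAt A p)`, use `KaehlerDifferential.isLocalizedModule_map`: every
`ω` has a multiple `s • ω`, `s ∉ p`, in the span. The module of differentials of `A` is finite
(`KaehlerDifferential.finite`); take the product of the `s` of finitely many generators. -/
theorem klt_span [Algebra.FiniteType ℂ A] (p : Ideal A) [p.IsPrime] (ζ : Fin n → A)
    (h : Submodule.span (locAt A p) (Set.range fun l => KaehlerDifferential.D ℂ (locAt A p)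
      (Subalgebra.inclusion (loc_locAt p).1 (ζ l))) = ⊤) :
    ∃ s : A, s ∉ p ∧ ∀ ω, s • ω ∈
      Submodule.span A (Set.range fun l => KaehlerDifferential.D ℂ A (ζ l)) := by
  classical
  choose s hs using KltB_one p ζ h
  obtain ⟨S, hS⟩ := Module.Finite.fg_top (R := A) (M := Ω[A⁄ℂ])
  refine ⟨(∏ ω ∈ S, s ω).1, (∏ ω ∈ S, s ω).2, fun ω => ?_⟩
  have h1 : ω ∈ Submodule.span A (S : Set Ω[A⁄ℂ]) := hS.ge Submodule.mem_top
  induction h1 using Submodule.span_induction with
  | mem ω hω =>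
    rw [← Finset.prod_erase_mul S s hω, Submonoid.coe_mul, mul_smul]
    exact Submodule.smul_mem _ _ (hs ω)
  | zero => simp
  | add a b _ _ ha hb =>
    rw [smul_add]
    exact add_mem ha hb
  | smul r a _ ha =>
    rw [smul_comm]
    exact Submodule.smul_mem _ r ha

theorem KltB_der {O : Subalgebra ℂ K} (D : Fin n → Derivation ℂ K K) (ζ : Fin n → O)
    (h : Submodule.span O (Set.range fun l => KaehlerDifferential.D ℂ O (ζ l)) = ⊤) (r : O) :
    ∃ c : Fin n → O, ∀ a, D a r = ∑ l, c l * D a (ζ l) := by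
  obtain ⟨c, hc⟩ := (Submodule.mem_span_range_iff_exists_fun _).1
    (h.ge (Submodule.mem_top (x := KaehlerDifferential.D ℂ O r)))
  refine ⟨c, fun a => ?_⟩
  have h1 := congrArg ((D a).compAlgebraMap O).liftKaehlerDifferential hc
  simp only [map_sum, map_smul, Derivation.liftKaehlerDifferential_comp_D] at h1
  exact h1.symm

theorem KltB_frac {O : Subalgebra ℂ K} (D : Fin n → Derivation ℂ K K) (ζ : Fin n → O)
    (h : Submodule.span O (Set.range fun l => KaehlerDifferential.D ℂ O (ζ l)) = ⊤) {b z : K}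
    (hb : b ∈ O) (h0 : b ≠ 0) (hz : b * z ∈ O) : ∃ c c' : Fin n → O, ∀ a,
      D a z = ∑ l, b⁻¹ * (c l - z * c' l) * D a (ζ l) := by
  obtain ⟨c, hc⟩ := KltB_der D ζ h ⟨_, hz⟩
  obtain ⟨c', hc'⟩ := KltB_der D ζ h ⟨_, hb⟩
  refine ⟨c, c', fun a => ?_⟩
  have h1 := (D a).leibniz b z
  rw [smul_eq_mul, smul_eq_mul, hc a, hc' a] at h1
  simp only [mul_assoc, sub_mul, ← Finset.mul_sum, Finset.sum_sub_distrib]
  rw [h1, add_sub_cancel_right, inv_mul_cancel_left₀ h0]

theorem KltB_jac (D : Fin n → Derivation ℂ K K) {u ζ : Fin n → K} {c : Fin n → Fin n → K}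
    (h : ∀ b a, D a (u b) = ∑ l, c b l * D a (ζ l)) :
    jac D u = jac D ζ * (Matrix.of fun l b => c b l).det := by
  rw [jac, jac, ← Matrix.det_mul]
  congr 1
  ext a b
  simp only [Matrix.of_apply, Matrix.mul_apply, h, mul_comm]

/-- Sketch: for `r ∈ O` write `d r = ∑ l, c l • d (ζ l)` and apply the linear map attached to the
restriction of `D a` to `O` (`Derivation.liftKaehlerDifferential`): `D a r = ∑ l, c l * D a (ζ l)`
for all `a`. For `w z ≤ 1` write `b * z = r` with `w b = 1`: the same holds with `w (c l) ≤ 1`.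
So `jac D u = jac D ζ * det c` (`Matrix.det_mul`) and `w (det c) ≤ 1`. -/
theorem klt_jac {O : Subalgebra ℂ K} (D : Fin n → Derivation ℂ K K) (ζ : Fin n → O)
    (h : Submodule.span O (Set.range fun l => KaehlerDifferential.D ℂ O (ζ l)) = ⊤) {w : ZVal K}
    (hw : PrimeDiv O w) {u : Fin n → K} (hu : ∀ b, w (u b) ≤ 1) :
    w (jac D u) ≤ w (jac D fun l => (ζ l : K)) := by
  choose b hb b1 h1 using fun j => hw.2.2 _ (hu j)
  have h0 : ∀ j, b j ≠ 0 := fun j => w.ne_zero_iff.1 (b1 j ▸ one_ne_zero)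
  choose c c' hc using fun j => KltB_frac D ζ h (hb j) (h0 j) (h1 j)
  rw [KltB_jac D hc, map_mul]
  refine mul_le_of_le_one_right' ((w.mem_integer_iff _).1 ?_)
  rw [Matrix.det_apply']
  refine sum_mem fun σ _ => mul_mem (intCast_mem _ _) (prod_mem fun j _ => ?_)
  refine mul_mem ((w.mem_integer_iff _).2 ?_) (sub_mem (hw.2.1 _ (c j _).2)
    (mul_mem (hu j) (hw.2.1 _ (c' j _).2)))
  rw [map_inv₀, b1, inv_one]

/-- Sketch: as in `klt_jac`, every `z = r / b` in `K` has `D a z = ∑ l, c l * D a (ζ l)` with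
`c l ∈ K`. So `1 = jac D τ = jac D ζ * det c`. -/
theorem klt_jac_ne {O : Subalgebra ℂ K} [IsFractionRing O K] {τ : Fin n → K}
    {D : Fin n → Derivation ℂ K K} (hD : ∀ a b, D a (τ b) = if a = b then 1 else 0)
    (ζ : Fin n → O)
    (h : Submodule.span O (Set.range fun l => KaehlerDifferential.D ℂ O (ζ l)) = ⊤) :
    (jac D fun l => (ζ l : K)) ≠ 0 ∧ ∀ l, (ζ l : K) ≠ 0 := by
  have h1 : ∀ j, ∃ c : Fin n → K, ∀ a, D a (τ j) = ∑ l, c l * D a (ζ l) := fun j => by
    obtain ⟨r, b, hb, e⟩ := IsFractionRing.div_surjective O (τ j)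
    have h0 : (b : K) ≠ 0 := fun e => nonZeroDivisors.ne_zero hb (Subtype.ext e)
    obtain ⟨c, c', hc⟩ := KltB_frac D ζ h (z := τ j) b.2 h0 (by
      rw [← e]
      exact (mul_div_cancel₀ (r : K) h0).symm ▸ r.2)
    exact ⟨_, hc⟩
  choose c hc using h1
  have h2 : jac D τ = 1 := by
    rw [jac, ← Matrix.det_one (n := Fin n)]
    congr 1
    ext a b
    rw [Matrix.of_apply, hD, Matrix.one_apply]
  have h3 := left_ne_zero_of_mul ((KltB_jac D hc).symm.trans_ne (h2.trans_ne one_ne_zero))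
  exact ⟨h3, fun l e => h3 (Matrix.det_eq_zero_of_column_eq_zero l fun a => by simp [e])⟩

end Pool.Agent.Lib.MP_bc213e_ag.OW
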