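import Pool.Agent.Lib.MP_bc213e_ag.OW.A.Eff
import Pool.Agent.Lib.MP_bc213e_ag.OW.A.KltA
import Pool.Agent.Lib.MP_bc213e_ag.OW.A.KltB
import Pool.Agent.Lib.MP_bc213e_ag.DD.Klt

/-! Log smooth klt points in the chart form. -/

namespace Pool.Agent.Lib.MP_bc213e_ag.OW

open Pool.Agent.Lib.MP_bc213e_ag.Hyp Pool.Agent.Lib.MP_bc213e_ag.KBB WithZero Filter

variable {K κ : Type} [Field K] [Algebra ℂ K] {N : ℕ} {x : Fin N → Kˣ} {L : Prm x →₀ ℤ}

theorem Klt_trdeg (R : Type) [CommRing R] [IsDomain R] [Algebra ℂ R] :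
    Algebra.trdeg ℂ (FractionRing R) = Algebra.trdeg ℂ R := by
  have h : Algebra.IsAlgebraic R (FractionRing R) :=
    IsLocalization.isAlgebraic (FractionRing R) (nonZeroDivisors R)
  have h2 := trdeg_add_eq ℂ R (A := FractionRing R)
  rw [trdeg_eq_zero_iff.2 h, add_zero] at h2
  exact h2.symm

/-- The residue field of a point. Sketch: `KBB.res_field` (file `KBB/Res`) or
`FractionRing (A ⧸ p)`; extend to `locAt A p` by `IsLocalization.lift` or by hand;
`trdeg_add_eq` or `Algebra.IsAlgebraic.trdeg_eq` type lemmas for the fraction field. -/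
theorem exists_residue {A : Subalgebra ℂ K} (p : Ideal A) [p.IsPrime] :
    ∃ (F : Type) (_ : Field F) (_ : Algebra ℂ F) (ρ : locAt A p →ₐ[ℂ] F),
      Function.Surjective ρ ∧ Algebra.trdeg ℂ F = Algebra.trdeg ℂ (A ⧸ p) := by
  let : Algebra A (locAt A p) := (Subalgebra.inclusion (loc_locAt p).1).toRingHom.toAlgebra
  have : IsScalarTower ℂ A (locAt A p) := IsScalarTower.of_algebraMap_eq fun _ => rfl
  have hu : ∀ b : A, b ∉ p → ∃ c : locAt A p, algebraMap A (locAt A p) b * c = 1 := fun b hb =>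
    ⟨⟨_, (inv_mem_locAt hb).2⟩, Subtype.ext (mul_inv_cancel₀ (inv_mem_locAt hb).1)⟩
  have : IsLocalization p.primeCompl (locAt A p) := by
    refine (isLocalization_iff _ _).2 ⟨fun y => ?_, fun z => ?_, fun {y z} h => ⟨1, ?_⟩⟩
    · obtain ⟨c, hc⟩ := hu y.1 y.2
      exact IsUnit.of_mul_eq_one c hc
    · obtain ⟨b, hb, h⟩ := z.2
      exact ⟨⟨⟨_, h⟩, b, hb⟩, Subtype.ext (mul_comm _ _)⟩
    · rw [Subalgebra.inclusion_injective (loc_locAt p).1 h]
  let φ : A →ₐ[ℂ] FractionRing (A ⧸ p) :=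
    (IsScalarTower.toAlgHom ℂ (A ⧸ p) _).comp (Ideal.Quotient.mkₐ ℂ p)
  have hφ : ∀ b : A, b ∉ p → φ b ≠ 0 := fun b hb h =>
    hb (Ideal.Quotient.eq_zero_iff_mem.1 ((map_eq_zero_iff
      (algebraMap (A ⧸ p) (FractionRing (A ⧸ p))) (IsFractionRing.injective _ _)).1 h))
  have hf : ∀ y : p.primeCompl, IsUnit (φ y) := fun y => (hφ y.1 y.2).isUnit
  refine ⟨FractionRing (A ⧸ p), inferInstance, inferInstance, IsLocalization.liftAlgHom hf,
    fun z => ?_, ?_⟩
  · obtain ⟨a, b, hb, rfl⟩ := IsFractionRing.div_surjective (A ⧸ p) z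
    obtain ⟨a, rfl⟩ := Ideal.Quotient.mk_surjective a
    obtain ⟨b, rfl⟩ := Ideal.Quotient.mk_surjective b
    have hb' : b ∉ p := fun h =>
      nonZeroDivisors.ne_zero hb (Ideal.Quotient.eq_zero_iff_mem.2 h)
    obtain ⟨c, hc⟩ := hu b hb'
    have h1 : ∀ r : A, IsLocalization.liftAlgHom (S := locAt A p) hf (algebraMap A _ r) = φ r :=
      fun r => IsLocalization.lift_eq hf r
    have h2 := congrArg (IsLocalization.liftAlgHom (S := locAt A p) hf) hc
    rw [map_mul, h1, map_one] at h2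
    refine ⟨algebraMap A _ a * c, ?_⟩
    rw [map_mul, h1, eq_inv_of_mul_eq_one_right h2]
    exact (div_eq_mul_inv _ _).symm
  · exact Klt_trdeg (A ⧸ p)

theorem Klt_exp {α : Type} (s : Finset α) (f : α → ℤ) :
    ∏ i ∈ s, exp (f i) = exp (∑ i ∈ s, f i) := by
  classical
  induction s using Finset.induction_on with
  | empty => rw [Finset.prod_empty, Finset.sum_empty, exp_zero]
  | insert a s ha ih => rw [Finset.prod_insert ha, Finset.sum_insert ha, ih, exp_add]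

/-- Sketch: `klt_den`, `klt_span`. Put `J = jac D ζ'`; `J ≠ 0` and `ζ' l ≠ 0` by `klt_jac_ne`. For a
prime divisor `w` of `locAt _ p` (an element of `Prm x` by `Loc.primeDiv` and `E.loc`),
`ord w J = -KX w` (`klt_jac`, `IsLeast`), `ord w (ζ' l) = ord w (ζ l)`, `w g' = exp (L w)`, so
`z = J ^ m / (g' * ∏ l, ζ' l ^ d l)` has value one. Apply `exists_unit`. -/
theorem Emb.sncKlt [Fintype κ] (E : Emb L κ)
    (h : ∀ i, IsFractionRing (chart x i) K ∧ IsIntegrallyClosed (chart x i)) {n m : ℕ}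
    {τ : Fin n → K} {D : Fin n → Derivation ℂ K K}
    (hD : ∀ a b, D a (τ b) = if a = b then 1 else 0) {KX : Prm x →₀ ℤ} (hK : IsCanonical D KX)
    {Δ : Prm x →₀ ℚ} (hL : ∀ w, (L w : ℚ) = m * (KX w + Δ w)) (a : κ)
    (p : Ideal (chart E.x' a)) [p.IsPrime] (klt : LogSmoothKlt n m Δ (locAt (chart E.x' a) p)) :
    SncKlt D m (E.g' a) p := by
  obtain ⟨ζ, d, hd, hsp, hΔ⟩ := klt
  obtain ⟨ζ', b, hb, hζ, hsp'⟩ := klt_den p ζ hsp
  have := chart_noeth E.x' a
  have := (E.normal h a).1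
  have := (E.normal h a).2
  have : Algebra.FiniteType ℂ (chart E.x' a) :=
    (Subalgebra.fg_iff_finiteType _).1 (Subalgebra.fg_def.2 ⟨_, Set.finite_range _, rfl⟩)
  have := (loc_locAt p).frac
  obtain ⟨s, hs, hω⟩ := klt_span p ζ' hsp'
  obtain ⟨hJ, h0⟩ : (jac D fun l => (ζ' l : K)) ≠ 0 ∧ ∀ l, (ζ' l : K) ≠ 0 :=
    klt_jac_ne hD (fun l => Subalgebra.inclusion (loc_locAt p).1 (ζ' l)) hsp'
  have hden : (E.g' a : K) * ∏ l, (ζ' l : K) ^ d l ≠ 0 :=
    mul_ne_zero (E.g' a).ne_zero (Finset.prod_ne_zero_iff.2 fun l _ => pow_ne_zero _ (h0 l))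
  obtain ⟨r, r', hr, hr', e⟩ := exists_unit p (div_ne_zero (pow_ne_zero m hJ) hden) (by
    intro w hw
    have hA := (loc_locAt p).primeDiv hw
    let w' : Prm x := ⟨w, E.j a, (E.loc a).primeDiv hA⟩
    have h1 : w (jac D fun l => (ζ' l : K)) = exp (KX w') := by
      refine le_antisymm (hK.le w' fun l => hA.2.1 _ (ζ' l).2) ?_
      obtain ⟨u, hu, hu0, hu1⟩ := (hK w').1
      have h2 := (ord_eq_iff w hu0 _).1 hu1
      rw [neg_neg] at h2
      rw [← h2]
      exact klt_jac D (fun l => Subalgebra.inclusion (loc_locAt p).1 (ζ' l)) hsp' hw hu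
    have h2 : w (b : K) = 1 := by
      refine le_antisymm (hA.2.1 _ b.2) ?_
      have h3 := hw.2.1 _ (inv_mem_locAt hb).2
      rwa [map_inv₀, inv_le_one₀ (zero_lt_iff.2
        ((Valuation.ne_zero_iff w).2 (inv_mem_locAt hb).1))] at h3
    have h3 : ∀ l, w ((ζ' l : K) ^ d l) = exp (d l • -ord w (ζ l : K)) := fun l => by
      have h4 : (ζ l : K) ≠ 0 := fun h5 => h0 l (by rw [hζ, h5, mul_zero])
      rw [map_pow, hζ, map_mul, h2, one_mul, (ord_eq_iff w h4 _).1 rfl, exp_nsmul]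
    have h4 : L w' = m * KX w' + ∑ l, (d l : ℤ) * ord w (ζ l : K) := by
      have h5 := hL w'
      rw [mul_add, hΔ w' hw] at h5
      exact_mod_cast h5
    have h5 : w (E.g' a : K) = exp (L w') := E.eqn a w' hA
    rw [map_div₀, map_pow, h1, map_mul, h5, map_prod, Finset.prod_congr rfl fun l _ => h3 l,
      Klt_exp, ← exp_add, ← exp_nsmul, div_eq_one_iff_eq exp_ne_zero, h4]
    simp only [nsmul_eq_mul, mul_neg, Finset.sum_neg_distrib, add_neg_cancel_right])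
  refine ⟨ζ', d, s, r, r', hs, hr, hr', hd, hω, ?_⟩
  rw [← e, mul_assoc, mul_assoc, div_mul_cancel₀ _ hden]

end Pool.Agent.Lib.MP_bc213e_ag.OW
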