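import Pool.Agent.Lib.MP_bc213e_ag.OW.IDefs
import Pool.Agent.Lib.MP_bc213e_ag.Hyp.Basic

/-! Localisations and prime divisors. -/

namespace Pool.Agent.Lib.MP_bc213e_ag.OW

open Pool.Agent.Lib.MP_bc213e_ag.Hyp WithZero

variable {K ι : Type} [Field K] [Algebra ℂ K] {A B C : Subalgebra ℂ K}

theorem Loc.refl (A : Subalgebra ℂ K) : Loc A A :=
  ⟨le_rfl, fun z hz => ⟨1, A.one_mem, one_ne_zero, by rw [inv_one]; exact A.one_mem,
    by rwa [one_mul]⟩⟩

theorem Loc_clear (h : Loc A B) {b z : K} (hb : b ∈ B) (hz : b * z ∈ B) :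
    ∃ s ∈ A, s ≠ 0 ∧ s⁻¹ ∈ B ∧ s * b ∈ A ∧ s * b * z ∈ A := by
  obtain ⟨s, hs, s0, si, h1⟩ := h.2 b hb
  obtain ⟨t, ht, t0, ti, h2⟩ := h.2 _ hz
  refine ⟨t * s, A.mul_mem ht hs, mul_ne_zero t0 s0, ?_, ?_, ?_⟩
  · rw [mul_inv]
    exact B.mul_mem ti si
  · rw [mul_assoc]
    exact A.mul_mem ht h1
  · rw [show t * s * b * z = s * (t * (b * z)) by ring]
    exact A.mul_mem hs h2

omit [Algebra ℂ K] in
theorem Loc_one (w : ZVal K) {s : K} (h0 : s ≠ 0) (h1 : w s ≤ 1) (h2 : w s⁻¹ ≤ 1) : w s = 1 :=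
  le_antisymm h1 ((inv_le_one₀ (w.pos_iff.2 h0)).1 (by rwa [map_inv₀] at h2))

theorem Loc.trans (h : Loc A B) (h' : Loc B C) : Loc A C := by
  refine ⟨h.1.trans h'.1, fun z hz => ?_⟩
  obtain ⟨b, hb, b0, bi, h1⟩ := h'.2 z hz
  obtain ⟨s, -, s0, si, h2, h3⟩ := Loc_clear h hb h1
  refine ⟨s * b, h2, mul_ne_zero s0 b0, ?_, h3⟩
  rw [mul_inv]
  exact C.mul_mem (h'.1 si) bi

/-- Sketch: `w s = 1` if `s` and `s⁻¹` lie in `B`; clear the denominators of `b` and `b * z`. -/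
theorem Loc.primeDiv (h : Loc A B) {w : ZVal K} (hw : PrimeDiv B w) : PrimeDiv A w := by
  refine ⟨hw.1, fun r hr => hw.2.1 r (h.1 hr), fun z hz => ?_⟩
  obtain ⟨b, hb, b1, h1⟩ := hw.2.2 z hz
  obtain ⟨s, hs, s0, si, h2, h3⟩ := Loc_clear h hb h1
  refine ⟨s * b, h2, ?_, h3⟩
  rw [map_mul, b1, Loc_one w s0 (hw.2.1 s (h.1 hs)) (hw.2.1 _ si), one_mul]

theorem primeDiv_of_le (h : A ≤ B) {w : ZVal K} (hw : PrimeDiv A w) (hB : ∀ r ∈ B, w r ≤ 1) :
    PrimeDiv B w :=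
  ⟨hw.1, hB, fun z hz => (hw.2.2 z hz).imp fun _ hb => ⟨h hb.1, hb.2.1, h hb.2.2⟩⟩

theorem Loc.frac (h : Loc A B) [IsFractionRing A K] : IsFractionRing B K := by
  refine IsFractionRing.of_field B K fun z => ?_
  obtain ⟨n, d, -, rfl⟩ := IsFractionRing.div_surjective A z
  exact ⟨⟨n, h.1 n.2⟩, ⟨d, h.1 d.2⟩, rfl⟩

theorem Loc_isLoc (h : Loc A B) : letI := (Subalgebra.inclusion h.1).toRingHom.toAlgebra
    IsLocalization ((IsUnit.submonoid B).comap (algebraMap A B)) B := by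
  let := (Subalgebra.inclusion h.1).toRingHom.toAlgebra
  refine (isLocalization_iff _ _).2 ⟨fun y => y.2, fun z => ?_, fun {a b} e => ?_⟩
  · obtain ⟨b, hb, b0, bi, h1⟩ := h.2 z z.2
    exact ⟨(⟨_, h1⟩, ⟨⟨b, hb⟩, IsUnit.of_mul_eq_one ⟨_, bi⟩
      (Subtype.ext (mul_inv_cancel₀ b0))⟩), Subtype.ext (mul_comm _ _)⟩
  · exact ⟨1, by rw [Subalgebra.inclusion_injective h.1 e]⟩

/-- Sketch: `B` is the localisation of `A` at the monoid of the elements of `A` that are units in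
`B` (algebra structure from `Subalgebra.inclusion`), or directly: an ideal of `B` is generated by
its contraction. -/
theorem Loc.noeth (h : Loc A B) [IsNoetherianRing A] : IsNoetherianRing B := by
  let := (Subalgebra.inclusion h.1).toRingHom.toAlgebra
  have := Loc_isLoc h
  exact IsLocalization.isNoetherianRing ((IsUnit.submonoid B).comap (algebraMap A B)) B ‹_›

theorem Loc.normal (h : Loc A B) [IsFractionRing A K] [IsIntegrallyClosed A] :
    IsIntegrallyClosed B := by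
  let := (Subalgebra.inclusion h.1).toRingHom.toAlgebra
  have := Loc_isLoc h
  refine isIntegrallyClosed_of_isLocalization B ((IsUnit.submonoid B).comap (algebraMap A B))
    fun a ha => mem_nonZeroDivisors_of_ne_zero ?_
  rintro rfl
  exact IsUnit.ne_zero ha (map_zero _)

theorem Loc_inv {p : Ideal A} [p.IsPrime] {b : A} (hb : b ∉ p) :
    (b : K) ≠ 0 ∧ (b : K)⁻¹ ∈ locAt A p := by
  have h0 : (b : K) ≠ 0 := fun e => hb (by rw [show b = 0 from Subtype.ext e]; exact p.zero_mem)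
  exact ⟨h0, b, hb, by rw [mul_inv_cancel₀ h0]; exact A.one_mem⟩

theorem loc_locAt (p : Ideal A) [p.IsPrime] : Loc A (locAt A p) :=
  ⟨fun z hz => ⟨1, fun h => Ideal.IsPrime.ne_top ‹_› ((Ideal.eq_top_iff_one p).2 h), by
    rwa [Subalgebra.coe_one, one_mul]⟩,
    fun _ ⟨b, hb, hz⟩ => ⟨b, b.2, (Loc_inv hb).1, (Loc_inv hb).2, hz⟩⟩

theorem inv_mem_locAt {p : Ideal A} [p.IsPrime] {b : A} (hb : b ∉ p) :
    (b : K) ≠ 0 ∧ (b : K)⁻¹ ∈ locAt A p :=
  Loc_inv hb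

theorem primeDiv_locAt (p : Ideal A) [p.IsPrime] (w : ZVal K) :
    PrimeDiv (locAt A p) w ↔ PrimeDiv A w ∧ ∀ r : A, w r < 1 → r ∈ p := by
  refine ⟨fun hw => ⟨(loc_locAt p).primeDiv hw, fun r hr => ?_⟩, fun hw => ?_⟩
  · by_contra hn
    exact hr.ne (Loc_one w (Loc_inv hn).1 hr.le (hw.2.1 _ (Loc_inv hn).2))
  · refine primeDiv_of_le (loc_locAt p).1 hw.1 fun z ⟨b, hb, hz⟩ => ?_
    have h1 : w b = 1 := (hw.1.2.1 b b.2).eq_of_not_lt fun e => hb (hw.2 b e)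
    have h2 := hw.1.2.1 _ hz
    rwa [map_mul, h1, one_mul] at h2

theorem Loc.locAt_eq (h : Loc A B) (q : Ideal B) [q.IsPrime] :
    locAt B q = locAt A (q.comap (Subalgebra.inclusion h.1)) := by
  ext z
  refine ⟨fun ⟨b, hb, hz⟩ => ?_, fun ⟨a, ha, hz⟩ => ⟨Subalgebra.inclusion h.1 a, ha, h.1 hz⟩⟩
  obtain ⟨s, -, s0, si, h2, h3⟩ := Loc_clear h b.2 hz
  refine ⟨⟨_, h2⟩, fun e => hb ?_, h3⟩
  convert q.mul_mem_left ⟨_, si⟩ (Ideal.mem_comap.1 e) using 1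
  exact Subtype.ext (inv_mul_cancel_left₀ s0 _).symm

theorem isPoint_locAt (x : ι → Kˣ) (i : ι) (p : Ideal (chart x i)) [p.IsPrime] :
    IsPoint x (locAt (chart x i) p) :=
  ⟨i, p, ‹_›, fun _ => Iff.rfl⟩

theorem Loc.isPoint {x : ι → Kˣ} {i : ι} (h : Loc (chart x i) B) (q : Ideal B) [q.IsPrime] :
    IsPoint x (locAt B q) := by
  rw [h.locAt_eq q]
  exact isPoint_locAt x i _

/-- A prime divisor of the chart `i` meets the chart `l` iff `x l / x i` does not vanish on it.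
Sketch: `chart_trans`. -/
theorem primeDiv_chart {x : ι → Kˣ} {i : ι} {w : ZVal K} (h : PrimeDiv (chart x i) w) (l : ι) :
    PrimeDiv (chart x l) w ↔ w ((x l : K) / x i) = 1 := by
  refine ⟨fun h' => ?_, fun h1 => ⟨h.1, fun r hr => ?_, fun z hz => ?_⟩⟩
  · refine Loc_one w (div_ne_zero (x l).ne_zero (x i).ne_zero) (h.2.1 _ (Basic_mem x i l)) ?_
    rw [inv_div]
    exact h'.2.1 _ (Basic_mem x l i)
  · obtain ⟨e, he⟩ := chart_trans x l i hr
    have h2 := h.2.1 _ he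
    rwa [map_mul, map_pow, h1, one_pow, mul_one] at h2
  · obtain ⟨b, hb, b1, h2⟩ := h.2.2 z hz
    obtain ⟨e, he⟩ := chart_trans x i l hb
    obtain ⟨e', he'⟩ := chart_trans x i l h2
    have hu := Basic_mem x l i
    refine ⟨b * ((x i : K) / x l) ^ e * ((x i : K) / x l) ^ e', mul_mem he (pow_mem hu _), ?_, ?_⟩
    · rw [← inv_div, map_mul, map_mul, map_pow, map_pow, map_inv₀, h1, b1]
      simp
    · convert mul_mem he' (pow_mem hu e) using 1
      ring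

/-- A power of `s` kills the poles of `z` if `s` vanishes along all of them.
Sketch: `finite_supp`, `hartogs`. -/
theorem exists_pow_mem [IsNoetherianRing A] [IsFractionRing A K] [IsIntegrallyClosed A] {s z : K}
    (hs : s ∈ A) (h : ∀ w : ZVal K, PrimeDiv A w → w s = 1 → w z ≤ 1) :
    ∃ e : ℕ, z * s ^ e ∈ A := by
  by_cases h0 : z = 0
  · exact ⟨0, by rw [h0, zero_mul]; exact A.zero_mem⟩
  have h1 : ∀ w : ZVal K, ∃ e : ℕ, PrimeDiv A w → w z * w s ^ e ≤ 1 := fun w => by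
    by_cases h2 : w s < 1
    · obtain ⟨e, he⟩ := exists_pow_lt₀ h2 (Units.mk0 (w z) (w.ne_zero_iff.2 h0))⁻¹
      refine ⟨e, fun _ => ?_⟩
      rw [Units.val_inv_eq_inv_val, Units.val_mk0] at he
      exact (mul_le_mul_right he.le _).trans_eq (mul_inv_cancel₀ (w.ne_zero_iff.2 h0))
    · exact ⟨0, fun hw => by
        rw [pow_zero, mul_one]
        exact h w hw ((hw.2.1 s hs).eq_of_not_lt h2)⟩
  choose f hf using h1
  refine ⟨(finite_supp (A := A) h0).toFinset.sup f, hartogs fun w hw => ?_⟩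
  rw [map_mul, map_pow]
  by_cases h2 : w z = 1
  · rw [h2, one_mul]
    exact pow_le_one' (hw.2.1 s hs) _
  · refine (mul_le_mul_right (pow_le_pow_right_of_le_one' (hw.2.1 s hs) ?_) _).trans (hf w hw)
    exact Finset.le_sup ((Set.Finite.mem_toFinset _).2 ⟨hw, h2⟩)

/-- An element without zeros and poles along the prime divisors through `p` is a quotient of two
elements outside `p`. Sketch: `hartogs` for `locAt A p`, applied to `z` and `z⁻¹`. -/
theorem exists_unit [IsNoetherianRing A] [IsFractionRing A K] [IsIntegrallyClosed A] (p : Ideal A)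
    [p.IsPrime] {z : K} (h0 : z ≠ 0) (h : ∀ w : ZVal K, PrimeDiv (locAt A p) w → w z = 1) :
    ∃ r r' : A, r ∉ p ∧ r' ∉ p ∧ (r : K) * z = r' := by
  have := (loc_locAt p).noeth
  have := (loc_locAt p).frac
  have := (loc_locAt p).normal
  obtain ⟨b, hb, h1⟩ : z ∈ locAt A p := hartogs fun w hw => (h w hw).le
  obtain ⟨c, hc, h2⟩ : z⁻¹ ∈ locAt A p := hartogs fun w hw => by rw [map_inv₀, h w hw, inv_one]
  refine ⟨b, ⟨_, h1⟩, hb, fun e => ?_, rfl⟩
  refine (Ideal.IsPrime.mem_or_mem ‹_› (x := b) (y := c) ?_).elim hb hc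
  convert p.mul_mem_right ⟨_, h2⟩ e using 1
  refine Subtype.ext ?_
  change (b : K) * c = b * z * (c * z⁻¹)
  rw [mul_mul_mul_comm, mul_inv_cancel₀ h0, mul_one]

theorem ord_eq_iff {F : Type} [Field F] (w : ZVal F) {f : F} (hf : f ≠ 0) (k : ℤ) :
    ord w f = k ↔ w f = exp (-k) := by
  rw [ord, neg_eq_iff_eq_neg]
  exact ⟨fun e => by rw [← e, exp_log (w.ne_zero_iff.2 hf)], fun e => by rw [e, log_exp]⟩

theorem le_ord_iff {F : Type} [Field F] (w : ZVal F) {f : F} (hf : f ≠ 0) (k : ℤ) :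
    k ≤ ord w f ↔ w f ≤ exp (-k) := by
  rw [ord, le_neg, log_le_iff_le_exp (w.ne_zero_iff.2 hf)]

theorem ord_mul {F : Type} [Field F] (w : ZVal F) {f f' : F} (hf : f ≠ 0) (hf' : f' ≠ 0) :
    ord w (f * f') = ord w f + ord w f' := by
  rw [ord, ord, ord, map_mul, log_mul (w.ne_zero_iff.2 hf) (w.ne_zero_iff.2 hf'), neg_add]

theorem ord_pow {F : Type} [Field F] (w : ZVal F) (f : F) (e : ℕ) :
    ord w (f ^ e) = e * ord w f := by
  rw [ord, ord, map_pow, log_pow, nsmul_eq_mul, mul_neg]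

theorem ord_inv {F : Type} [Field F] (w : ZVal F) (f : F) : ord w f⁻¹ = -ord w f := by
  rw [ord, ord, map_inv₀, log_inv]

theorem mem_sect {x : ι → Kˣ} {L : Prm x →₀ ℤ} {σ : Finset ι} {s : K} : s ∈ Sect L σ ↔
    ∀ w : Prm x, (∀ i ∈ σ, PrimeDiv (chart x i) w.1) → w.1 s ≤ exp (L w) := Iff.rfl

theorem tw_zero {N : ℕ} {x : Fin N → Kˣ} (L : Prm x →₀ ℤ) : Tw L 0 = Sect L ∅ := by
  ext s
  simp only [mem_Tw, mem_sect, pow_zero, div_one]
  refine ⟨fun h w _ => ?_, fun h i w _ => h w fun _ hj => absurd hj (Finset.notMem_empty _)⟩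
  obtain ⟨i, hi⟩ := w.2
  exact h i w fun j hj => Finset.mem_singleton.1 hj ▸ hi

end Pool.Agent.Lib.MP_bc213e_ag.OW
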